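import Pool.Agent.Work.MP_cb6225_lc.Green

/-! A language with a nonempty neutral word is expressible by word equations, regular constraints
and conditions on the lengths if and only if it is regular. -/

namespace Pool.Agent.Work.MP_cb6225_lc.Parked.NeutralWord

open Pool.Agent.Work.MP_cb6225_lc

theorem result (α : Type) [Finite α] (Λ : Set (Set (ℕ → ℕ))) (L : Language α) (z : List α)
    (hz : z ≠ []) (neutral : ∀ x y : List α, x ++ z ++ y ∈ L ↔ x ++ y ∈ L) :
    Expressible Λ L ↔ L.IsRegular := by
  constructor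
  · intro h
    obtain ⟨M, _, _, μ, c, hμ, k⟩ := mp_of_expr h hz fun x y => by simpa using neutral x y
    exact regular_of_mp hμ k
  · intro h
    exact ⟨.reg 0 L h, 0, fun w => ⟨fun k => ⟨fun _ => w, k, rfl⟩, fun ⟨_, k, e⟩ => e ▸ k⟩⟩

end Pool.Agent.Work.MP_cb6225_lc.Parked.NeutralWord
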